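import Mathlib
import Pool.Agent.N852.MM.Stm

/-!
Project EL: all smooth complete intersections of multilinear hypersurfaces in products of
projective spaces of large dimension.  Definitions and the statements of the parts.
-/

namespace Pool.Agent.N852.EL

set_option linter.unusedSectionVars false

open Matrix Module Filter Topology Function MvPolynomial
open Pool.Agent.N852 (ic)
open Pool.Agent.N852.DD (Bl)
open Pool.Agent.N852.MM

/-! ### Elimination theory -/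

/-- `f` is homogeneous of degree `δ t` in the variables of the block `t`. -/
def MH {T : Type} {κ : T → Type} [∀ t, Fintype (κ t)] {R : Type*} [CommRing R]
    (f : MvPolynomial (Σ t, κ t) R) (δ : T → ℕ) : Prop :=
  ∀ β ∈ f.support, ∀ t, ∑ j, β ⟨t, j⟩ = δ t

/-- The common zeros with nonzero blocks. -/
def Zer {T ι : Type} {κ : T → Type} (f : ι → MvPolynomial (Σ t, κ t) ℂ) : Prop :=
  ∃ z : ∀ t, κ t → ℂ, (∀ t, z t ≠ 0) ∧ ∀ l, eval (fun q => z q.1 q.2) (f l) = 0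

/-- The ideal generated by the polynomials contains all monomials of degree `d` in each block. -/
def Mon {T ι : Type} {κ : T → Type} [∀ t, Fintype (κ t)]
    (f : ι → MvPolynomial (Σ t, κ t) ℂ) (d : ℕ) : Prop :=
  ∀ β : (Σ t, κ t) →₀ ℕ, (∀ t, ∑ j, β ⟨t, j⟩ = d) → monomial β (1 : ℂ) ∈ Ideal.span (Set.range f)

/-- The evaluation of the parameters. -/
noncomputable def ea {σ : Type} (a : σ → ℂ) : MvPolynomial σ ℤ →+* ℂ :=
  eval₂Hom (Int.castRingHom ℂ) a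

/-- EL/A: the main theorem of elimination theory, with uniform degrees. -/
def ElimP : Prop := ∀ (V' T ι : Type) [Fintype V'] [Fintype T] [Fintype ι] (lam : V' → Type)
  (κ : T → Type) [∀ v, Fintype (lam v)] [∀ t, Fintype (κ t)]
  (f : ι → MvPolynomial (Σ t, κ t) (MvPolynomial (Σ v, lam v) ℤ)) (δ : ι → T → ℕ),
  (∀ l, MH (f l) (δ l)) →
  ∃ (Ω : Set (MvPolynomial (Σ v, lam v) ℤ)) (d : ℕ),
    (∀ ε : ι → V' → ℕ, (∀ l β, MH ((f l).coeff β) (ε l)) → ∀ w ∈ Ω, ∃ ε' : V' → ℕ, MH w ε') ∧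
    ∀ a : (Σ v, lam v) → ℂ,
      (Zer (fun l => MvPolynomial.map (ea a) (f l)) ↔ ∀ w ∈ Ω, ea a w = 0) ∧
      (¬ Zer (fun l => MvPolynomial.map (ea a) (f l)) →
        Mon (fun l => MvPolynomial.map (ea a) (f l)) d)

/-- EL/B: the number of points in an affine space of a projection of a multiprojective variety
without points at infinity. -/
def FewP : Prop := ∀ (T ι : Type) [Fintype T] [DecidableEq T] [Fintype ι] (κ : T → Type)
  [∀ t, Fintype (κ t)] (t₀ : T) (d : ℕ), ∃ δ₀ : ℕ,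
  ∀ (f g : ι → MvPolynomial (Σ t, κ t) ℂ) (δ : ι → T → ℕ), (∀ l, MH (f l) (δ l)) →
    (∀ l, ∀ β ∈ (g l - f l).support, ∑ j, β ⟨t₀, j⟩ < δ l t₀ ∧
      ∀ t, t ≠ t₀ → ∑ j, β ⟨t, j⟩ = δ l t) →
    Mon f d →
    ∀ Y : Finset (κ t₀ → ℂ), (∀ y ∈ Y, ∃ z : ∀ t, κ t → ℂ, z t₀ = y ∧ (∀ t, t ≠ t₀ → z t ≠ 0) ∧
      ∀ l, eval (fun q => z q.1 q.2) (g l) = 0) → Y.card ≤ δ₀

/-! ### Separated sets -/

/-- EL/C: separated sets of zeros, upper bound. -/
def SepUpP : Prop := ∀ (E E' : Type) [NormedAddCommGroup E] [NormedSpace ℝ E]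
  [FiniteDimensional ℝ E] [NormedAddCommGroup E'] [NormedSpace ℝ E'] [FiniteDimensional ℝ E']
  (Φ : E → E') (K : Set E), IsCompact K → Continuous Φ →
  (∀ x ∈ K, Φ x = 0 → ∃ Φ' : E →L[ℝ] E', HasStrictFDerivAt Φ Φ' x ∧ Surjective Φ') →
  ∃ C : ℝ, 0 < C ∧ ∀ (μ : ℝ) (P : Finset E), 1 ≤ μ → (∀ x ∈ P, x ∈ K ∧ Φ x = 0) →
    (∀ x ∈ P, ∀ y ∈ P, x ≠ y → 1 / μ ≤ dist x y) →
    (P.card : ℝ) ≤ C * μ ^ (finrank ℝ E - finrank ℝ E')

/-- The matrix of a linear subspace which is a graph over the first `r` coordinates. -/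
def gr {R : Type*} [Zero R] [One R] {r n : ℕ} (A : Fin r → Fin n → R) : Fin r → Fin n → R :=
  fun j l => if (l : ℕ) < r then (if (l : ℕ) = j then 1 else 0) else A j l

/-- The point of the linear subspace. -/
def lc {R : Type*} [CommRing R] {r n : ℕ} (A : Fin r → Fin n → R) (z : Fin r → R) : Fin n → R :=
  fun l => ∑ j, z j * gr A j l

/-- EL/D: separated sets in sets which meet all linear subspaces, lower bound. -/
def SepLowP : Prop := ∀ (T : Type) [Fintype T] (n r : T → ℕ), (∀ t, 1 ≤ r t) →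
  (∀ t, r t ≤ n t) → ∃ c C₀ : ℝ, 0 < c ∧ 1 ≤ C₀ ∧ ∀ W : Set (∀ t, Fin (n t) → ℂ),
    (∀ x ∈ W, ∀ a : T → ℂ, (∀ t, a t ≠ 0) → (fun t => a t • x t) ∈ W) →
    (∀ A : ∀ t, Fin (r t) → Fin (n t) → ℂ, ∃ z : ∀ t, Fin (r t) → ℂ, (∀ t, z t ≠ 0) ∧
      (fun t => lc (A t) (z t)) ∈ W) →
    ∀ μ : ℝ, 1 ≤ μ → ∃ P : Finset (∀ t, Fin (n t) → ℂ),
      (∀ x ∈ P, x ∈ W ∧ ∀ t, 1 ≤ ‖x t‖ ∧ ‖x t‖ ≤ C₀) ∧
      (∀ x ∈ P, ∀ y ∈ P, x ≠ y → 1 / μ ≤ dist x y) ∧
      c * μ ^ (2 * ∑ t, (n t - r t + 1)) ≤ P.card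

/-! ### Systems of multilinear forms -/

variable {V : Type} [DecidableEq V] {n : V → ℕ} {k : ℕ}

/-- The complex points. -/
def cT {R : Type*} [CommRing R] [Algebra R ℂ] (x : Tup n R) : Tup n ℂ :=
  fun v l => algebraMap R ℂ (x v l)

/-- The Jacobian criterion: the gradients of the forms are linearly independent at all complex
points with nonzero vectors at which the forms vanish. -/
def Sm (F : Sys n k) : Prop := ∀ x : Tup n ℂ, (∀ v, x v ≠ 0) → Inc F x → ∀ s : Fin k → ℂ,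
  (∀ v (l : Fin (n v)), ∑ i : Wi F v, s i * der F v x i l = 0) → s = 0

/-- The vectors of the family with index in `S` are those of `x`, the others are in the linear
subspaces. -/
def mx {R : Type*} [CommRing R] {r : ℕ} (A : ∀ v, Fin r → Fin (n v) → R) (S : Finset V)
    (x : Tup n R) (z : V → Fin r → R) : Tup n R :=
  fun v => if v ∈ S then x v else lc (A v) (z v)

/-- The forms of the bad locus of index `u`. -/
def Zu (F : Sys n k) (u : V) {R : Type*} [CommRing R] (x : Tup n R) (s : Wi F u → R) : Prop :=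
  IncN F u x ∧ ∀ l, ∑ i, s i * der F u x i l = 0

/-- The bad locus of index `S`, `u`. -/
def Bu (F : Sys n k) {r : ℕ} (A : ∀ v, Fin r → Fin (n v) → ℂ) (u : V) (S : Finset V)
    (x : Tup n ℂ) : Prop :=
  ∃ (z : V → Fin r → ℂ) (s : Wi F u → ℂ), (∀ v, z v ≠ 0) ∧ s ≠ 0 ∧ Zu F u (mx A S x z) s

/-- The bad locus of index `S`. -/
def BS (F : Sys n k) {r : ℕ} (A : ∀ v, Fin r → Fin (n v) → ℂ) (S : Finset V) (x : Tup n ℂ) :
    Prop := ∃ u, u ∉ S ∧ Bu F A u S x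

/-- The complex linear subspaces. -/
def cA {r : ℕ} (A : ∀ v, Fin r → Fin (n v) → ℤ) : ∀ v, Fin r → Fin (n v) → ℂ :=
  fun v j l => (A v j l : ℂ)

/-- The good families. -/
def GS (F : Sys n k) {r : ℕ} (A : ∀ v, Fin r → Fin (n v) → ℤ) (v : V) (x : Tup n ℤ) : Prop :=
  GI F v x ∧ ∀ S : Finset V, v ∉ S → ¬ BS F (cA A) S (cT x)

open Classical in
/-- EL/F: the number of integer points in the bad locus. -/
def CntBS : Prop := ∀ (V : Type) [Fintype V] [DecidableEq V] (n : V → ℕ) (k : ℕ) (F : Sys n k)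
  (r : ℕ) (A : ∀ v, Fin r → Fin (n v) → ℤ), 1 ≤ r → (∀ v, r ≤ n v) →
  ∃ C : ℝ, 0 ≤ C ∧ ∀ (S : Finset V) (v : V), v ∉ S → ∀ x : Tup n ℤ, ¬ BS F (cA A) S (cT x) →
    ∀ X : ℝ, 1 ≤ X →
      (((Bl (n v) X).filter fun z => BS F (cA A) (insert v S) (cT (update x v z))).card : ℝ) ≤
        C * X ^ (n v - r)

/-- EL/H: the engine. -/
def EngS : Prop := ∀ (V : Type) [Fintype V] [DecidableEq V] (n : V → ℕ) (k : ℕ) (F : Sys n k)
  (a : V → ℕ) (D : ℕ) (A : ∀ v, Fin (D + 1) → Fin (n v) → ℤ), (∀ i, 2 ≤ (F.e i).card) →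
  (∀ v, ∃ i, v ∈ F.e i) → (∀ v, a v + dg F v = n v) → D = ∑ i, (F.e i).card →
  (∀ v, D + 1 ≤ n v) → (∀ x : Tup n ℂ, ¬ BS F (cA A) ∅ x) → Eng F (GS F A) a D

/-! ### The Jacobian of the bad loci -/

/-- The dimensions of the vectors of the bad locus of index `u`. -/
def nu (F : Sys n k) (u : V) : Option {v : V // v ≠ u} → ℕ
  | none => dg F u
  | some v => n v.1

/-- The families of complex vectors of the bad locus of index `u`. -/
abbrev Yu (F : Sys n k) (u : V) : Type := ∀ t : Option {v : V // v ≠ u}, Fin (nu F u t) → ℂ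

/-- The family of vectors, with value `0` at `u`. -/
def xu (F : Sys n k) (u : V) (y : Yu F u) : Tup n ℂ :=
  fun v => if h : v = u then 0 else y (some ⟨v, h⟩)

/-- The coefficients. -/
noncomputable def su (F : Sys n k) (u : V) (y : Yu F u) : Wi F u → ℂ :=
  fun i => y none (Fintype.equivFin (Wi F u) i)

/-- The equations of the bad locus. -/
noncomputable def Phi (F : Sys n k) (u : V) (y : Yu F u) :
    ({i : Fin k // u ∉ F.e i} → ℂ) × (Fin (n u) → ℂ) :=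
  (fun i => ev F i.1 (xu F u y), fun l => ∑ i, su F u y i * der F u (xu F u y) i l)

/-- EL/E: the equations of the bad locus are independent. -/
def JacP : Prop := ∀ (V : Type) [Fintype V] [DecidableEq V] (n : V → ℕ) (k : ℕ) (F : Sys n k),
  Sm F → (∀ u, dg F u ≤ n u) → ∀ u : V, Continuous (Phi F u) ∧
    ∀ y : Yu F u, (∀ t, y t ≠ 0) → Phi F u y = 0 →
      ∃ Φ' : Yu F u →L[ℝ] ({i : Fin k // u ∉ F.e i} → ℂ) × (Fin (n u) → ℂ),
        HasStrictFDerivAt (Phi F u) Φ' y ∧ Surjective Φ'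

/-- EL/G: there are rational linear subspaces without bad points. -/
def GenP : Prop := ∀ (V : Type) [Fintype V] [DecidableEq V] (n : V → ℕ) (k : ℕ) (F : Sys n k)
  (D : ℕ), (∀ v, ∃ i, v ∈ F.e i) → Sm F → (∀ v, D + 1 ≤ n v) → (∀ v, dg F v ≤ n v) →
  (∀ v, (Fintype.card V - 1) * D + 2 * dg F v ≤ n v + k) →
  ∃ A : ∀ v, Fin (D + 1) → Fin (n v) → ℤ, ∀ x : Tup n ℂ, ¬ BS F (cA A) ∅ x

/-- EL/I: the bad loci are closed. -/
def ClosP : Prop := ∀ (V : Type) [Fintype V] [DecidableEq V] (n : V → ℕ) (k : ℕ) (F : Sys n k)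
  (r : ℕ) (A : ∀ v, Fin r → Fin (n v) → ℤ), 1 ≤ r →
  ∃ Ω : Set (MvPolynomial (Σ v, Fin (n v)) ℤ), (∀ w ∈ Ω, ∃ ε : V → ℕ, MH w ε) ∧
    ∀ x : Tup n ℂ, (∃ S : Finset V, S ≠ Finset.univ ∧ BS F (cA A) S x) ↔
      ∀ w ∈ Ω, ea (fun q => x q.1 q.2) w = 0

end Pool.Agent.N852.EL
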