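import Mathlib
import Pool.Agent.N852.EL.Stm

/-!
The polynomials of the bad loci and their degrees.
-/

namespace Pool.Agent.N852.EL

set_option linter.unusedSectionVars false

open Matrix Module Filter Topology Function MvPolynomial
open Pool.Agent.N852 (ic)
open Pool.Agent.N852.MM

/-! ### Graded rings -/

/-- A family of sets which behaves like the homogeneous elements of a graded ring. -/
structure GrL {P : Type*} [CommRing P] {T : Type*} (H : (T → ℕ) → P → Prop) : Prop where
  zero : ∀ d, H d 0
  one : H 0 1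
  add : ∀ {d f g}, H d f → H d g → H d (f + g)
  neg : ∀ {d f}, H d f → H d (-f)
  mul : ∀ {d e f g}, H d f → H e g → H (d + e) (f * g)

section GrL

variable {P : Type*} [CommRing P] {T : Type*} {H : (T → ℕ) → P → Prop}

theorem GrL.sum (hH : GrL H) {ι : Type*} (s : Finset ι) {f : ι → P} {d : T → ℕ}
    (h : ∀ i ∈ s, H d (f i)) : H d (∑ i ∈ s, f i) := by
  classical
  induction s using Finset.induction_on with
  | empty => simpa using hH.zero d
  | insert i s hi ih =>
    rw [Finset.sum_insert hi]
    exact hH.add (h i (Finset.mem_insert_self i s)) (ih fun j hj => h j (Finset.mem_insert_of_mem hj))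

theorem GrL.prod (hH : GrL H) {ι : Type*} (s : Finset ι) {f : ι → P} {d : ι → T → ℕ}
    (h : ∀ i ∈ s, H (d i) (f i)) : H (∑ i ∈ s, d i) (∏ i ∈ s, f i) := by
  classical
  induction s using Finset.induction_on with
  | empty => simpa using hH.one
  | insert i s hi ih =>
    rw [Finset.prod_insert hi, Finset.sum_insert hi]
    exact hH.mul (h i (Finset.mem_insert_self i s)) (ih fun j hj => h j (Finset.mem_insert_of_mem hj))

theorem GrL.nat (hH : GrL H) (m : ℕ) : H 0 (m : P) := by
  induction m with
  | zero => simpa using hH.zero 0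
  | succ m ih =>
    rw [Nat.cast_succ]
    exact hH.add ih hH.one

theorem GrL.int (hH : GrL H) (m : ℤ) : H 0 (m : P) := by
  rcases Int.eq_nat_or_neg m with ⟨j, rfl | rfl⟩
  · rw [Int.cast_natCast]
    exact hH.nat j
  · rw [Int.cast_neg, Int.cast_natCast]
    exact hH.neg (hH.nat j)

theorem GrL.intMul (hH : GrL H) (m : ℤ) {d : T → ℕ} {f : P} (h : H d f) : H d ((m : P) * f) := by
  have := hH.mul (hH.int m) h
  rwa [zero_add] at this

theorem GrL.det (hH : GrL H) {ι : Type*} [Fintype ι] [DecidableEq ι] {M : Matrix ι ι P}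
    {d : ι → T → ℕ} (h : ∀ i j, H (d i) (M i j)) : H (∑ i, d i) M.det := by
  rw [← Matrix.det_transpose, Matrix.det_apply]
  refine hH.sum _ fun σ _ => ?_
  have h1 : H (∑ i, d i) (∏ i, Mᵀ (σ i) i) := hH.prod _ fun i _ => h i (σ i)
  rcases Int.units_eq_one_or (Equiv.Perm.sign σ) with h2 | h2
  · rw [h2, one_smul]
    exact h1
  · rw [h2]
    rw [Units.neg_smul, one_smul]
    exact hH.neg h1

variable {V : Type} [DecidableEq V] {n : V → ℕ} {k : ℕ} {F : Sys n k}

theorem GrL.ev (hH : GrL H) {x : Tup n P} {w : V → T → ℕ} (hx : ∀ v l, H (w v) (x v l)) (i : Fin k) :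
    H (∑ v ∈ F.e i, w v) (ev F i x) := by
  unfold MM.ev
  refine hH.sum _ fun j _ => hH.intMul _ ?_
  rw [← Finset.sum_coe_sort (F.e i)]
  exact hH.prod _ fun v _ => hx v (j v)

theorem GrL.dd (hH : GrL H) {x : Tup n P} {w : V → T → ℕ} (hx : ∀ v l, H (w v) (x v l)) {i : Fin k}
    {u : V} (hu : u ∈ F.e i) (l : Fin (n u)) :
    H (∑ v ∈ (F.e i).erase u, w v) (MM.dd F i u x l) := by
  have h1 := hH.ev (F := F) (x := update x u (Pi.single l 1)) (w := update w u 0) (by
    intro v l'
    by_cases hv : v = u
    · subst hv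
      rw [update_self, update_self]
      by_cases hl : l' = l
      · subst hl
        rw [Pi.single_eq_same]
        exact hH.one
      · rw [Pi.single_eq_of_ne hl]
        exact hH.zero 0
    · rw [update_of_ne hv, update_of_ne hv]
      exact hx v l') i
  rw [← Finset.add_sum_erase _ _ hu, update_self, zero_add] at h1
  have h2 : ∑ v ∈ (F.e i).erase u, update w u 0 v = ∑ v ∈ (F.e i).erase u, w v :=
    Finset.sum_congr rfl fun v hv => by rw [update_of_ne (Finset.ne_of_mem_erase hv)]
  rw [h2] at h1
  exact h1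

end GrL

/-! ### The equations of the bad loci -/

variable {V : Type} [DecidableEq V] {n : V → ℕ} {k : ℕ} {F : Sys n k} {u : V}

/-- The index set of the equations. -/
abbrev Ci (F : Sys n k) (u : V) : Type := {i : Fin k // u ∉ F.e i} ⊕ (Wi F u → Fin (n u))

/-- The equations: the forms which do not depend on `x u` and the maximal minors of the matrix of
the equations for `x u`. -/
def cp (F : Sys n k) (u : V) {R : Type*} [CommRing R] (x : Tup n R) : Ci F u → R :=
  Sum.elim (fun i => ev F i.1 x) fun J => (Matrix.of fun i j => der F u x i (J j)).det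

/-- The degrees of the equations. -/
def dc (F : Sys n k) (u : V) {T : Type*} (w : V → T → ℕ) : Ci F u → T → ℕ :=
  Sum.elim (fun i => ∑ v ∈ F.e i.1, w v) fun _ => ∑ i : Wi F u, ∑ v ∈ (F.e i.1).erase u, w v

theorem GrL.cp {P : Type*} [CommRing P] {T : Type*} {H : (T → ℕ) → P → Prop} (hH : GrL H)
    {x : Tup n P} {w : V → T → ℕ} (hx : ∀ v l, H (w v) (x v l)) (l : Ci F u) :
    H (dc F u w l) (cp F u x l) := by
  rcases l with i | J
  · exact hH.ev hx i.1
  · exact hH.det fun i j => hH.dd hx i.2 (J j)

theorem cp_map {R S : Type*} [CommRing R] [CommRing S] (φ : R →+* S) (x : Tup n R) (l : Ci F u) :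
    cp F u (fun v l => φ (x v l)) l = φ (cp F u x l) := by
  rcases l with i | J
  · exact ev_map φ i.1 x
  · unfold cp
    simp only [Sum.elim_inr]
    rw [RingHom.map_det]
    congr 1
    ext i j
    have h := congrFun (dd_map (F := F) φ i.1 u x) (J j)
    exact h

/-- Linear dependence and minors. -/
theorem dep_iff {K : Type*} [Field K] {ι : Type*} [Fintype ι] [DecidableEq ι] {N : ℕ}
    (M : ι → Fin N → K) : (∃ s : ι → K, s ≠ 0 ∧ ∀ l, ∑ i, s i * M i l = 0) ↔
      ∀ J : ι → Fin N, (Matrix.of fun i j => M i (J j)).det = 0 := by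
  constructor
  · rintro ⟨s, hs, h⟩ J
    rw [← Matrix.exists_vecMul_eq_zero_iff]
    refine ⟨s, hs, ?_⟩
    funext j
    exact h (J j)
  · intro h
    by_contra hno
    push Not at hno
    -- the rows are linearly independent
    have h1 : LinearIndependent K M := by
      rw [Fintype.linearIndependent_iff]
      intro s hs i
      by_contra hi
      obtain ⟨l, hl⟩ := hno s (fun h0 => hi (by rw [h0]; rfl))
      apply hl
      have := congrFun hs l
      simpa [Finset.sum_apply, Pi.smul_apply, smul_eq_mul] using this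
    -- the columns span
    set A : Matrix ι (Fin N) K := Matrix.of M with hA
    have h2 : A.rank = Fintype.card ι := by
      have h1' : LinearIndependent K A.row := h1
      exact h1'.rank_matrix
    have h3 : ⊤ ≤ Submodule.span K (Set.range A.col) := by
      have h4 : finrank K (Submodule.span K (Set.range A.col)) = Fintype.card ι := by
        rw [← Matrix.rank_eq_finrank_span_cols]
        exact h2
      have h5 : Submodule.span K (Set.range A.col) = ⊤ := by
        apply Submodule.eq_top_of_finrank_eq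
        rw [h4, finrank_fintype_fun_eq_card]
      rw [h5]
    obtain ⟨κ, a, ha, hspan, hli⟩ := exists_linearIndependent' K A.col
    have hb : Fintype κ := by
      have : Finite κ := Finite.of_injective a ha
      exact Fintype.ofFinite κ
    have hcard : Fintype.card κ = Fintype.card ι := by
      have e1 := finrank_span_eq_card hli
      rw [hspan, top_le_iff.1 h3, finrank_top, finrank_fintype_fun_eq_card] at e1
      exact e1.symm
    have e := Fintype.equivOfCardEq hcard.symm
    have hli2 : LinearIndependent K (fun j : ι => A.col (a (e j))) := hli.comp e e.injective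
    have h6 := h fun j => a (e j)
    rw [← Matrix.exists_mulVec_eq_zero_iff] at h6
    obtain ⟨v, hv, h7⟩ := h6
    rw [Fintype.linearIndependent_iff] at hli2
    apply hv
    funext j
    refine hli2 v ?_ j
    funext i
    have h8 := congrFun h7 i
    rw [Matrix.mulVec, dotProduct] at h8
    rw [Finset.sum_apply]
    rw [← h8]
    refine Finset.sum_congr rfl fun j _ => ?_
    rw [Pi.smul_apply, smul_eq_mul, mul_comm]
    rfl

theorem zu_iff (x : Tup n ℂ) : (∃ s, s ≠ 0 ∧ Zu F u x s) ↔ ∀ l, cp F u x l = 0 := by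
  constructor
  · rintro ⟨s, hs, h1, h2⟩ l
    rcases l with i | J
    · exact h1 i.1 i.2
    · exact (dep_iff _).1 ⟨s, hs, h2⟩ J
  · intro h
    obtain ⟨s, hs, h2⟩ := (dep_iff (fun i l => der F u x i l)).2 fun J => h (Sum.inr J)
    exact ⟨s, hs, fun i hi => h (Sum.inl ⟨i, hi⟩), h2⟩

theorem bu_iff {r : ℕ} {A : ∀ v, Fin r → Fin (n v) → ℂ} {S : Finset V} {x : Tup n ℂ} :
    Bu F A u S x ↔ ∃ z : V → Fin r → ℂ, (∀ v, z v ≠ 0) ∧ ∀ l, cp F u (mx A S x z) l = 0 := by
  constructor
  · rintro ⟨z, s, hz, hs, h⟩
    exact ⟨z, hz, (zu_iff _).1 ⟨s, hs, h⟩⟩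
  · rintro ⟨z, hz, h⟩
    obtain ⟨s, hs, h'⟩ := (zu_iff _).2 h
    exact ⟨z, s, hz, hs, h'⟩

/-! ### Homogeneous polynomials -/

section MH

variable {T : Type} {κ : T → Type} [∀ t, Fintype (κ t)] {R : Type*} [CommRing R]

theorem bdeg_add (β γ : (Σ t, κ t) →₀ ℕ) (t : T) :
    ∑ j, (β + γ) ⟨t, j⟩ = ∑ j, β ⟨t, j⟩ + ∑ j, γ ⟨t, j⟩ := by
  rw [← Finset.sum_add_distrib]
  rfl

theorem MH_grl : GrL (fun δ f => MH (κ := κ) (R := R) f δ) where
  zero d β hβ := by simp at hβ
  one β hβ t := by
    classical
    rw [← C_1, MvPolynomial.mem_support_iff, coeff_C] at hβ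
    have h0 : β = 0 := by
      by_contra h
      rw [if_neg (Ne.symm h)] at hβ
      exact hβ rfl
    rw [h0]
    simp
  add {d f g} hf hg β hβ := by
    classical
    rcases Finset.mem_union.1 (support_add hβ) with h | h
    · exact hf β h
    · exact hg β h
  neg {d f} hf β hβ := by
    rw [MvPolynomial.mem_support_iff, coeff_neg, neg_ne_zero, ← MvPolynomial.mem_support_iff] at hβ
    exact hf β hβ
  mul {d e f g} hf hg β hβ t := by
    classical
    obtain ⟨β₁, h1, β₂, h2, rfl⟩ := Finset.mem_add.1 (support_mul f g hβ)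
    rw [bdeg_add, hf β₁ h1 t, hg β₂ h2 t]
    rfl

theorem MH_X [DecidableEq T] (t : T) (j : κ t) :
    MH (X ⟨t, j⟩ : MvPolynomial (Σ t, κ t) R) (Pi.single t 1) := by
  classical
  intro β hβ t'
  rw [MvPolynomial.mem_support_iff, coeff_X] at hβ
  have h0 : β = Finsupp.single ⟨t, j⟩ 1 := by
    by_contra h
    rw [if_neg (Ne.symm h)] at hβ
    exact hβ rfl
  rw [h0]
  by_cases h : t' = t
  · subst h
    rw [Pi.single_eq_same, Finset.sum_eq_single j]
    · simp
    · intro j' _ hj'
      rw [Finsupp.single_apply, if_neg]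
      intro h
      apply hj'
      have := eq_of_heq (Sigma.mk.inj h).2
      exact this.symm
    · intro h
      exact absurd (Finset.mem_univ _) h
  · rw [Pi.single_eq_of_ne h]
    apply Finset.sum_eq_zero
    intro j' _
    rw [Finsupp.single_apply, if_neg]
    intro h'
    exact h (Sigma.mk.inj h').1.symm

theorem MH_C (c : R) : MH (C c : MvPolynomial (Σ t, κ t) R) 0 := by
  classical
  intro β hβ t
  rw [MvPolynomial.mem_support_iff, coeff_C] at hβ
  have h0 : β = 0 := by
    by_contra h
    rw [if_neg (Ne.symm h)] at hβ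
    exact hβ rfl
  rw [h0]
  simp

/-- The coefficients are homogeneous. -/
def CH {V' : Type} {lam : V' → Type} [∀ t, Fintype (lam t)]
    (f : MvPolynomial (Σ t, κ t) (MvPolynomial (Σ v, lam v) ℤ)) (ε : V' → ℕ) : Prop :=
  ∀ β, MH (f.coeff β) ε

theorem CH_grl {V' : Type} {lam : V' → Type} [∀ t, Fintype (lam t)] :
    GrL (fun δ f => CH (κ := κ) (lam := lam) f δ) where
  zero d β := by
    rw [coeff_zero]
    exact MH_grl.zero d
  one β := by
    classical
    rw [← C_1, coeff_C]
    split_ifs
    · exact MH_grl.one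
    · exact MH_grl.zero 0
  add {d f g} hf hg β := by
    rw [coeff_add]
    exact MH_grl.add (hf β) (hg β)
  neg {d f} hf β := by
    rw [coeff_neg]
    exact MH_grl.neg (hf β)
  mul {d e f g} hf hg β := by
    classical
    rw [coeff_mul]
    exact MH_grl.sum _ fun p _ => MH_grl.mul (hf p.1) (hg p.2)

end MH

end Pool.Agent.N852.EL
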