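import Mathlib
import Pool.Agent.N852.EL.Pol

/-!
The polynomials of the bad loci: the families used in elimination theory.
-/

namespace Pool.Agent.N852.EL

set_option linter.unusedSectionVars false

open Matrix Module Filter Topology Function MvPolynomial
open Pool.Agent.N852 (ic)
open Pool.Agent.N852.MM

variable {V : Type} [DecidableEq V] {n : V → ℕ} {k : ℕ} {F : Sys n k} {u : V}

/-! ### The polynomials of the bad loci, with the point as parameter -/

section fP

variable {r : ℕ}

/-- The polynomial ring with the coordinates of the point as parameters. -/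
abbrev Px (n : V → ℕ) (r : ℕ) : Type := MvPolynomial (Σ _ : V, Fin r) (MvPolynomial (Σ v, Fin (n v)) ℤ)

/-- The matrices with entries in a ring. -/
def iA {R : Type*} [CommRing R] (A : ∀ v, Fin r → Fin (n v) → ℤ) : ∀ v, Fin r → Fin (n v) → R :=
  fun v j l => (A v j l : R)

theorem lc_map {R S : Type*} [CommRing R] [CommRing S] (φ : R →+* S) {m : ℕ} (A : Fin r → Fin m → R)
    (z : Fin r → R) (l : Fin m) : lc (fun j l => φ (A j l)) (fun j => φ (z j)) l = φ (lc A z l) := by
  unfold lc
  rw [map_sum]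
  refine Finset.sum_congr rfl fun j _ => ?_
  rw [map_mul]
  congr 1
  unfold gr
  split_ifs
  · rw [map_one]
  · rw [map_zero]
  · rfl

theorem mx_map {R S : Type*} [CommRing R] [CommRing S] (φ : R →+* S)
    (A : ∀ v, Fin r → Fin (n v) → R) (T : Finset V) (x : Tup n R) (z : V → Fin r → R) :
    mx (fun v j l => φ (A v j l)) T (fun v l => φ (x v l)) (fun v j => φ (z v j)) =
      fun v l => φ (mx A T x z v l) := by
  funext v l
  unfold mx
  split_ifs
  · rfl
  · exact lc_map φ (A v) (z v) l

/-- The polynomials of the bad locus. -/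
noncomputable def fP (F : Sys n k) (A : ∀ v, Fin r → Fin (n v) → ℤ) (u : V) (S : Finset V) :
    Ci F u → Px n r :=
  cp F u (mx (iA A) S (fun v l => C (X ⟨v, l⟩)) fun v j => X ⟨v, j⟩)

/-- The polynomials with the point inserted. -/
noncomputable def fC (F : Sys n k) (A : ∀ v, Fin r → Fin (n v) → ℤ) (u : V) (S : Finset V)
    (x : Tup n ℂ) : Ci F u → MvPolynomial (Σ _ : V, Fin r) ℂ :=
  cp F u (mx (iA A) S (fun v l => C (x v l)) fun v j => X ⟨v, j⟩)

theorem map_fP (A : ∀ v, Fin r → Fin (n v) → ℤ) (S : Finset V) (x : Tup n ℂ) (l : Ci F u) :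
    MvPolynomial.map (ea fun q => x q.1 q.2) (fP F A u S l) = fC F A u S x l := by
  unfold fP fC
  rw [← cp_map]
  congr 1
  funext v l
  have h := mx_map (MvPolynomial.map (ea fun q : (Σ v, Fin (n v)) => x q.1 q.2) :
    Px n r →+* MvPolynomial (Σ _ : V, Fin r) ℂ) (iA A) S (fun v l => C (X ⟨v, l⟩))
      fun v j => X ⟨v, j⟩
  rw [← congrFun (congrFun h v) l]
  congr 1
  congr 1
  · funext v j l
    simp [iA]
  · funext v l
    simp [ea]
  · funext v j
    simp

theorem eval_fC (A : ∀ v, Fin r → Fin (n v) → ℤ) (S : Finset V) (x : Tup n ℂ)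
    (z : V → Fin r → ℂ) (l : Ci F u) :
    eval (fun q => z q.1 q.2) (fC F A u S x l) = cp F u (mx (cA A) S x z) l := by
  unfold fC
  rw [← cp_map]
  congr 1
  funext v l
  have h := mx_map (eval (fun q : (Σ _ : V, Fin r) => z q.1 q.2)) (iA A) S (fun v l => C (x v l))
      fun v j => X ⟨v, j⟩
  rw [← congrFun (congrFun h v) l]
  congr 1
  congr 1
  · funext v j l
    simp [iA, cA]
  · funext v l
    simp
  · funext v j
    simp

theorem zer_fC {A : ∀ v, Fin r → Fin (n v) → ℤ} {S : Finset V} {x : Tup n ℂ} :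
    Zer (κ := fun _ : V => Fin r) (fC F A u S x) ↔ Bu F (cA A) u S x := by
  rw [bu_iff]
  unfold Zer
  simp only [eval_fC]

/-- The degrees of the vectors in the variables of the linear subspaces. -/
def wz (S : Finset V) (v : V) : V → ℕ := if v ∈ S then 0 else Pi.single v 1

/-- The degrees of the vectors in the parameters. -/
def wx (S : Finset V) (v : V) : V → ℕ := if v ∈ S then Pi.single v 1 else 0

theorem lc_grl {P : Type*} [CommRing P] {T : Type*} {H : (T → ℕ) → P → Prop} (hH : GrL H) {m : ℕ}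
    {A : Fin r → Fin m → P} {z : Fin r → P} {d : T → ℕ} (hA : ∀ j l, H 0 (A j l))
    (hz : ∀ j, H d (z j)) (l : Fin m) : H d (lc A z l) := by
  unfold lc
  refine hH.sum _ fun j _ => ?_
  have h1 : H 0 (gr A j l) := by
    unfold gr
    split_ifs
    · exact hH.one
    · exact hH.zero 0
    · exact hA j l
  have := hH.mul (hz j) h1
  rwa [add_zero] at this

/-- Homogeneity in the variables of the linear subspaces. -/
def Hr (V : Type) (r : ℕ) (R : Type*) [CommRing R] (δ : V → ℕ)
    (f : MvPolynomial (Σ _ : V, Fin r) R) : Prop := MH (κ := fun _ : V => Fin r) f δ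

theorem Hr_grl {R : Type*} [CommRing R] : GrL (Hr V r R) := MH_grl

theorem Hr_X {R : Type*} [CommRing R] (v : V) (j : Fin r) :
    Hr V r R (Pi.single v 1) (X ⟨v, j⟩) := MH_X (κ := fun _ : V => Fin r) v j

theorem Hr_C {R : Type*} [CommRing R] (c : R) : Hr V r R 0 (C c) :=
  MH_C (κ := fun _ : V => Fin r) c

theorem fP_MH (A : ∀ v, Fin r → Fin (n v) → ℤ) (S : Finset V) (l : Ci F u) :
    MH (κ := fun _ : V => Fin r) (fP F A u S l) (dc F u (wz S) l) := by
  have h := Hr_grl (V := V) (r := r) (R := MvPolynomial (Σ v, Fin (n v)) ℤ)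
  refine h.cp (fun v l => ?_) l
  unfold mx wz
  split_ifs
  · exact Hr_C _
  · exact lc_grl h (fun j l => h.int _) (fun j => Hr_X v j) l

theorem fC_MH (A : ∀ v, Fin r → Fin (n v) → ℤ) (S : Finset V) (x : Tup n ℂ) (l : Ci F u) :
    MH (κ := fun _ : V => Fin r) (fC F A u S x l) (dc F u (wz S) l) := by
  have h := Hr_grl (V := V) (r := r) (R := ℂ)
  refine h.cp (fun v l => ?_) l
  unfold mx wz
  split_ifs
  · exact Hr_C _
  · exact lc_grl h (fun j l => h.int _) (fun j => Hr_X v j) l

/-- Homogeneity of the coefficients. -/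
def Cr (n : V → ℕ) (r : ℕ) (ε : V → ℕ) (f : Px n r) : Prop :=
  CH (κ := fun _ : V => Fin r) (lam := fun v => Fin (n v)) f ε

theorem Cr_grl : GrL (Cr n r) := CH_grl

theorem fP_CH (A : ∀ v, Fin r → Fin (n v) → ℤ) (S : Finset V) (l : Ci F u) :
    CH (κ := fun _ : V => Fin r) (lam := fun v => Fin (n v)) (fP F A u S l)
      (dc F u (wx S) l) := by
  classical
  have h := Cr_grl (V := V) (r := r) (n := n)
  refine h.cp (fun v l => ?_) l
  unfold mx wx
  split_ifs
  · intro β
    rw [coeff_C]
    split_ifs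
    · exact MH_X (κ := fun v => Fin (n v)) v l
    · exact MH_grl.zero _
  · refine lc_grl h (fun j l => h.int _) (fun j => ?_) l
    intro β
    rw [coeff_X']
    split_ifs
    · exact MH_grl.one
    · exact MH_grl.zero 0

end fP

/-! ### The polynomials of the bad loci, with the linear subspaces as parameters -/

section gP

variable {r : ℕ}

/-- The polynomials of the bad locus of the empty set, with the matrices as parameters. -/
noncomputable def gP (F : Sys n k) (r : ℕ) (u : V) :
    Ci F u → MvPolynomial (Σ _ : V, Fin r) (MvPolynomial (Σ v, Fin r × Fin (n v)) ℤ) :=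
  cp F u fun v => lc (fun j l => C (X ⟨v, (j, l)⟩)) fun j => X ⟨v, j⟩

/-- The polynomials with the matrices inserted. -/
noncomputable def gC (F : Sys n k) (A : ∀ v, Fin r → Fin (n v) → ℂ) (u : V) :
    Ci F u → MvPolynomial (Σ _ : V, Fin r) ℂ :=
  cp F u fun v => lc (fun j l => C (A v j l)) fun j => X ⟨v, j⟩

theorem map_gP (A : ∀ v, Fin r → Fin (n v) → ℂ) (l : Ci F u) :
    MvPolynomial.map (ea fun q => A q.1 q.2.1 q.2.2) (gP F r u l) = gC F A u l := by
  unfold gP gC
  rw [← cp_map]
  congr 1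
  funext v l
  rw [← lc_map]
  congr 1
  · funext j l
    simp [ea]
  · funext j
    simp

theorem eval_gC (A : ∀ v, Fin r → Fin (n v) → ℂ) (z : V → Fin r → ℂ) (l : Ci F u) :
    eval (fun q => z q.1 q.2) (gC F A u l) = cp F u (fun v => lc (A v) (z v)) l := by
  unfold gC
  rw [← cp_map]
  congr 1
  funext v l
  rw [← lc_map]
  congr 1
  · funext j l
    simp
  · funext j
    simp

theorem gP_MH (l : Ci F u) :
    MH (κ := fun _ : V => Fin r) (gP F r u l) (dc F u (fun v => Pi.single v 1) l) := by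
  have h := Hr_grl (V := V) (r := r) (R := MvPolynomial (Σ v, Fin r × Fin (n v)) ℤ)
  refine h.cp (fun v l => ?_) l
  exact lc_grl h (fun j l => Hr_C _) (fun j => Hr_X v j) l

theorem mx_empty {R : Type*} [CommRing R] (A : ∀ v, Fin r → Fin (n v) → R) (x : Tup n R)
    (z : V → Fin r → R) : mx A ∅ x z = fun v => lc (A v) (z v) := by
  funext v
  unfold mx
  rw [if_neg (Finset.notMem_empty v)]

theorem zer_gC {A : ∀ v, Fin r → Fin (n v) → ℂ} {x : Tup n ℂ} :
    Zer (κ := fun _ : V => Fin r) (gC F A u) ↔ Bu F A u ∅ x := by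
  rw [bu_iff]
  unfold Zer
  simp only [eval_gC, mx_empty]

end gP

end Pool.Agent.N852.EL
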