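import Mathlib
import Pool.Agent.N852.MM.AdelR

/-!
Project EL, weak Manin conjecture: statements of the parts.
-/

namespace Pool.Agent.N852.EL

open Filter Topology Function
open Pool.Agent.N852 (qc)
open Pool.Agent.N852.MM

/-- EL/W1: a sum over the lattice points of a simplex. -/
def SumP : Prop := ∀ (V : Type) [Fintype V] (a l : V → ℝ) (α : ℝ), (∀ v, 0 < l v) →
  (∀ v, a v ≤ α * l v) → 0 < α → (∃ v, a v = α * l v) →
  ∃ C : ℝ, 0 < C ∧ ∀ (Y : ℝ) (J : Finset (V → ℕ)), 0 ≤ Y →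
    (∀ i ∈ J, ∑ v, l v * (i v : ℝ) ≤ Y) →
    ∑ i ∈ J, (2 : ℝ) ^ (∑ v, a v * (i v : ℝ)) ≤
      C * (2 : ℝ) ^ (α * Y) * (Y + 1) ^ (Nat.card {v // a v = α * l v} - 1)

/-- EL/W2: the upper bound for the number of rational points, for all ample line bundles. -/
def WeakP : Prop := ∀ (V : Type) [Fintype V] [DecidableEq V] (n : V → ℕ) (k : ℕ) (F : Sys n k)
  (G : V → Tup n ℤ → Prop) (a : V → ℕ) (D : ℕ), Eng F G a D →
  ∀ GQ : V → Tup n ℚ → Prop, (∀ v (x : Tup n ℤ) (c : V → ℚ), (∀ u, c u ≠ 0) →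
    (GQ v (fun u => c u • qc (x u)) ↔ G v x)) →
  ∀ (l : V → ℝ) (α : ℝ), (∀ v, 0 < l v) → (∀ v, (a v : ℝ) ≤ α * l v) →
    (∃ v, (a v : ℝ) = α * l v) → ∃ C : ℝ, 0 < C ∧ ∀ T : ℝ, 2 ≤ T →
      ({P : ∀ v, Projectivization ℚ (Fin (n v) → ℚ) | Inc F (rp P) ∧ (∀ v, GQ v (rp P)) ∧
        ∏ v, (P v).mulHeight ^ (l v) ≤ T} : Set _).Finite ∧
      (({P : ∀ v, Projectivization ℚ (Fin (n v) → ℚ) | Inc F (rp P) ∧ (∀ v, GQ v (rp P)) ∧
        ∏ v, (P v).mulHeight ^ (l v) ≤ T} : Set _).ncard : ℝ) ≤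
        C * T ^ α * Real.log T ^ (Nat.card {v // (a v : ℝ) = α * l v} - 1)

end Pool.Agent.N852.EL
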