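import Mathlib
import Pool.Agent.N852.EL.Stm
import Pool.Agent.N852.DD.Cov

/-!
EL/C: separated sets of zeros, upper bound.
-/

namespace Pool.Agent.N852.EL

open Matrix Module Filter Topology Function

theorem sepUpP : SepUpP := by
  intro E E' _ _ _ _ _ _ Φ K hK hΦ h
  obtain ⟨C, hC, h1⟩ := Pool.Agent.N852.DD.pack_compact hΦ hK h
  refine ⟨C + 1, by positivity, ?_⟩
  intro μ P hμ hP hsep
  have hμ0 : 0 < μ := by linarith
  have h2 := h1 (1 / μ) P (by positivity) (by rw [div_le_one hμ0]; exact hμ) hP (by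
    intro x hx y hy hxy
    rw [← dist_eq_norm]
    exact hsep x hx y hy hxy)
  by_cases hne : P = ∅
  · rw [hne]
    simp only [Finset.card_empty, Nat.cast_zero]
    positivity
  · obtain ⟨x, hx⟩ := Finset.nonempty_iff_ne_empty.2 hne
    obtain ⟨Φ', -, hs⟩ := h x (hP x hx).1 (hP x hx).2
    have hle : finrank ℝ E' ≤ finrank ℝ E :=
      LinearMap.finrank_le_finrank_of_surjective (f := (Φ' : E →ₗ[ℝ] E')) hs
    obtain ⟨d, hd⟩ := Nat.exists_eq_add_of_le hle
    have h3 : finrank ℝ E - finrank ℝ E' = d := by omega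
    rw [h3]
    rw [hd, pow_add, ← mul_assoc, mul_comm (P.card : ℝ), mul_assoc, mul_comm C] at h2
    have h4 : 0 < (1 / μ) ^ finrank ℝ E' := by positivity
    have h5 : (P.card : ℝ) * (1 / μ) ^ d ≤ C := le_of_mul_le_mul_left h2 h4
    rw [one_div, inv_pow] at h5
    have h6 : 0 < μ ^ d := by positivity
    calc (P.card : ℝ) = (P.card : ℝ) * (μ ^ d)⁻¹ * μ ^ d := by
          rw [mul_assoc, inv_mul_cancel₀ h6.ne', mul_one]
      _ ≤ C * μ ^ d := by gcongr
      _ ≤ (C + 1) * μ ^ d := by gcongr; linarith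

end Pool.Agent.N852.EL
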