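import Mathlib
import Pool.Agent.N852.MM.EngI
import Pool.Agent.N852.EL.Pol2

/-!
All smooth complete intersections of multilinear hypersurfaces: the open set and the asymptotic
formula.
-/

namespace Pool.Agent.N852.EL

set_option linter.unusedSectionVars false

open Matrix Module Filter Topology Function MvPolynomial
open Pool.Agent.N852 (ic qc)
open Pool.Agent.N852.MM

variable {V : Type} [DecidableEq V] {n : V → ℕ} {k : ℕ} {F : Sys n k}

/-! ### Scaling -/

theorem cp_smul {K : Type*} [Field K] {u : V} (x : Tup n K) {c : V → K} (hc : ∀ v, c v ≠ 0)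
    (l : Ci F u) : ∃ d : K, d ≠ 0 ∧ cp F u (fun v => c v • x v) l = d * cp F u x l := by
  rcases l with i | J
  · exact ⟨∏ v ∈ F.e i.1, c v, Finset.prod_ne_zero_iff.2 fun v _ => hc v, ev_smul i.1 c x⟩
  · refine ⟨∏ i : Wi F u, ∏ v ∈ (F.e i.1).erase u, c v,
      Finset.prod_ne_zero_iff.2 fun i _ => Finset.prod_ne_zero_iff.2 fun v _ => hc v, ?_⟩
    have h : (Matrix.of fun i j => der F u (fun v => c v • x v) i (J j)) =
        Matrix.of fun i j => (∏ v ∈ (F.e (i : Wi F u).1).erase u, c v) *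
          (Matrix.of fun i j => der F u x i (J j)) i j := by
      ext i j
      have h1 : der F u (fun v => c v • x v) i = (∏ v ∈ (F.e i.1).erase u, c v) • der F u x i :=
        MM.dd_smul i.1 i.2 c x
      simp only [Matrix.of_apply]
      rw [h1]
      rfl
    show (Matrix.of fun i j => der F u (fun v => c v • x v) i (J j)).det = _
    rw [h, Matrix.det_mul_column]
    rfl

theorem bu_smul_le {r : ℕ} {A : ∀ v, Fin r → Fin (n v) → ℂ} {u : V} {S : Finset V} {x : Tup n ℂ}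
    {c : V → ℂ} (hc : ∀ v, c v ≠ 0) (h : Bu F A u S x) : Bu F A u S fun v => c v • x v := by
  rw [bu_iff] at h ⊢
  obtain ⟨z, hz, h⟩ := h
  refine ⟨z, hz, fun l => ?_⟩
  have h1 : mx A S (fun v => c v • x v) z =
      fun v => (if v ∈ S then c v else 1) • mx A S x z v := by
    funext v
    unfold mx
    split_ifs
    · rfl
    · rw [one_smul]
  rw [h1]
  obtain ⟨d, -, h2⟩ := cp_smul (F := F) (u := u) (mx A S x z)
    (c := fun v => if v ∈ S then c v else 1) (by
      intro v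
      split_ifs
      · exact hc v
      · exact one_ne_zero) l
  rw [h2, h l, mul_zero]

theorem bu_smul {r : ℕ} {A : ∀ v, Fin r → Fin (n v) → ℂ} {u : V} {S : Finset V} {x : Tup n ℂ}
    {c : V → ℂ} (hc : ∀ v, c v ≠ 0) : Bu F A u S (fun v => c v • x v) ↔ Bu F A u S x := by
  constructor
  · intro h
    have h1 := bu_smul_le (c := fun v => (c v)⁻¹) (fun v => inv_ne_zero (hc v)) h
    have h2 : (fun v => (c v)⁻¹ • c v • x v) = x := by
      funext v
      rw [smul_smul, inv_mul_cancel₀ (hc v), one_smul]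
    rwa [h2] at h1
  · exact bu_smul_le hc

theorem bs_smul {r : ℕ} {A : ∀ v, Fin r → Fin (n v) → ℂ} {S : Finset V} {x : Tup n ℂ}
    {c : V → ℂ} (hc : ∀ v, c v ≠ 0) : BS F A S (fun v => c v • x v) ↔ BS F A S x := by
  unfold BS
  simp only [bu_smul hc]

/-! ### The open set -/

theorem ea_cT (x : Tup n ℚ) (w : MvPolynomial (Σ v, Fin (n v)) ℤ) :
    ea (fun q => cT x q.1 q.2) w =
      ((aeval (fun q : (Σ v, Fin (n v)) => x q.1 q.2) w : ℚ) : ℂ) := by
  have h : ea (fun q : (Σ v, Fin (n v)) => cT x q.1 q.2) =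
      (algebraMap ℚ ℂ).comp (aeval (R := ℤ) fun q : (Σ v, Fin (n v)) => x q.1 q.2).toRingHom := by
    apply MvPolynomial.ringHom_ext
    · intro m
      simp [ea]
    · intro q
      simp [ea, cT]
  rw [h]
  rfl

theorem cT_smul_qc (c : V → ℚ) (x : Tup n ℤ) :
    cT (fun u => c u • qc (x u)) = fun u => (c u : ℂ) • cT x u := by
  funext u l
  simp [cT, qc]

/-- The good families over the rational numbers. -/
def GQS (F : Sys n k) {r : ℕ} (A : ∀ v, Fin r → Fin (n v) → ℤ) (v : V) (x : Tup n ℚ) : Prop :=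
  LinearIndependent ℚ (der F v x) ∧ ∀ S : Finset V, v ∉ S → ¬ BS F (cA A) S (cT x)

theorem gqs_iff [Fintype V] {r : ℕ} {A : ∀ v, Fin r → Fin (n v) → ℤ} (v : V) (x : Tup n ℤ) (c : V → ℚ)
    (hc : ∀ u, c u ≠ 0) : GQS F A v (fun u => c u • qc (x u)) ↔ GS F A v x := by
  unfold GQS GS
  rw [GQ_iff v x c hc, cT_smul_qc]
  have h : ∀ S, BS F (cA A) S (fun u => (c u : ℂ) • cT x u) ↔ BS F (cA A) S (cT x) :=
    fun S => bs_smul fun u => by exact_mod_cast hc u
  simp only [h]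

theorem dep_bs {r : ℕ} (hr : 1 ≤ r) {A : ∀ v, Fin r → Fin (n v) → ℂ} [Fintype V] {u : V}
    {x : Tup n ℚ} (hx : Inc F x) (h : ¬ LinearIndependent ℚ (der F u x)) :
    BS F A (Finset.univ.erase u) (cT x) := by
  refine ⟨u, Finset.notMem_erase _ _, fun v => fun _ => 1, ?_⟩
  rw [Fintype.linearIndependent_iff] at h
  push Not at h
  obtain ⟨s, hs, i, hi⟩ := h
  refine ⟨fun i => (s i : ℂ), ?_, ?_, ?_, ?_⟩
  · intro v h0
    have := congrFun h0 ⟨0, hr⟩
    simp at this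
  · intro h0
    have := congrFun h0 i
    simp at this
    exact hi this
  · have h1 : mx A (Finset.univ.erase u) (cT x) (fun _ _ => 1) =
        update (cT x) u (lc (A u) fun _ => 1) := by
      funext v
      unfold mx
      by_cases hv : v = u
      · subst hv
        rw [if_neg (Finset.notMem_erase _ _), update_self]
      · rw [if_pos (Finset.mem_erase.2 ⟨hv, Finset.mem_univ v⟩), update_of_ne hv]
    rw [h1, incN_update]
    intro i _
    have := ev_map (F := F) (algebraMap ℚ ℂ) i x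
    rw [hx i, map_zero] at this
    exact this
  · intro l
    have h1 : mx A (Finset.univ.erase u) (cT x) (fun _ _ => 1) =
        update (cT x) u (lc (A u) fun _ => 1) := by
      funext v
      unfold mx
      by_cases hv : v = u
      · subst hv
        rw [if_neg (Finset.notMem_erase _ _), update_self]
      · rw [if_pos (Finset.mem_erase.2 ⟨hv, Finset.mem_univ v⟩), update_of_ne hv]
    rw [h1, der_update]
    have h2 : ∀ i, der F u (cT x) i l = ((der F u x i l : ℚ) : ℂ) := by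
      intro i
      have := congrFun (dd_map (F := F) (algebraMap ℚ ℂ) i.1 u x) l
      exact this
    have h3 := congrFun hs l
    rw [Finset.sum_apply] at h3
    simp only [Pi.smul_apply, smul_eq_mul, Pi.zero_apply] at h3
    simp only [h2]
    exact_mod_cast h3

theorem open_iff [Fintype V] {r : ℕ} (hr : 1 ≤ r) {A : ∀ v, Fin r → Fin (n v) → ℤ} {x : Tup n ℚ}
    (hx : Inc F x) : (∀ v, GQS F A v x) ↔
      ¬ ∃ S : Finset V, S ≠ Finset.univ ∧ BS F (cA A) S (cT x) := by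
  constructor
  · rintro h ⟨S, hS, hB⟩
    obtain ⟨v, hv⟩ : ∃ v, v ∉ S := by
      by_contra h0
      push Not at h0
      exact hS (Finset.eq_univ_iff_forall.2 h0)
    exact (h v).2 S hv hB
  · intro h v
    refine ⟨?_, fun S hS hB => h ⟨S, ?_, hB⟩⟩
    · by_contra h0
      refine h ⟨Finset.univ.erase v, fun h1 => ?_, dep_bs hr hx h0⟩
      have h2 := Finset.mem_univ v
      rw [← h1] at h2
      exact Finset.notMem_erase v Finset.univ h2
    · rintro rfl
      exact hS (Finset.mem_univ v)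

theorem sum_dg [Fintype V] (F : Sys n k) : ∑ v, dg F v = ∑ i, (F.e i).card := by
  classical
  have h1 : ∀ v, dg F v = ∑ i, if v ∈ F.e i then 1 else 0 := by
    intro v
    unfold dg
    rw [Fintype.card_subtype, Finset.card_filter]
  have h2 : ∀ i, (F.e i).card = ∑ v, if v ∈ F.e i then 1 else 0 := by
    intro i
    rw [Finset.card_eq_sum_ones, ← Finset.sum_filter, Finset.filter_mem_eq_inter,
      Finset.univ_inter]
  simp only [h1, h2]
  exact Finset.sum_comm

/-- The dimensions. -/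
theorem dims [Fintype V] (h2 : ∀ i, 2 ≤ (F.e i).card) (hv : ∀ v, ∃ i, v ∈ F.e i)
    (hn : ∀ v, (Fintype.card V - 1) * (∑ i, (F.e i).card) + 2 * dg F v ≤ n v + k) (v : V) :
    (∑ i, (F.e i).card) + 1 ≤ n v := by
  set D := ∑ i, (F.e i).card with hD
  have hdg : 0 < dg F v := by
    obtain ⟨i, hi⟩ := hv v
    exact Fintype.card_pos_iff.2 ⟨⟨i, hi⟩⟩
  have hk : 2 * k ≤ D := by
    have h3 : ∑ i : Fin k, 2 ≤ ∑ i, (F.e i).card := Finset.sum_le_sum fun i _ => h2 i
    simp at h3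
    omega
  have hV : 2 ≤ Fintype.card V := by
    obtain ⟨i, hi⟩ := hv v
    exact (h2 i).trans (Finset.card_le_univ _)
  rcases Nat.lt_or_ge 2 (Fintype.card V) with h3 | h3
  · have h4 : 2 * D ≤ (Fintype.card V - 1) * D := Nat.mul_le_mul_right _ (by omega)
    have := hn v
    omega
  · have h4 : Fintype.card V = 2 := le_antisymm h3 hV
    have h5 : ∀ i, F.e i = Finset.univ := by
      intro i
      apply Finset.eq_univ_of_card
      exact le_antisymm (Finset.card_le_univ _) (h4.le.trans (h2 i))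
    have h6 : dg F v = k := by
      unfold dg
      rw [Fintype.card_subtype]
      have : (Finset.univ.filter fun i : Fin k => v ∈ F.e i) = Finset.univ := by
        rw [Finset.filter_eq_self]
        intro i _
        rw [h5 i]
        exact Finset.mem_univ v
      rw [this]
      simp
    have h7 := hn v
    rw [h4, h6] at h7
    omega

/-- **The engine for smooth complete intersections.** -/
theorem eng_smooth [Fintype V] (hGen : GenP) (hEng : EngS) (h2 : ∀ i, 2 ≤ (F.e i).card)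
    (hv : ∀ v, ∃ i, v ∈ F.e i) (hF : Sm F)
    (hn : ∀ v, (Fintype.card V - 1) * (∑ i, (F.e i).card) + 2 * dg F v ≤ n v + k) {a : V → ℕ}
    (ha : ∀ v, a v + dg F v = n v) : ∃ A : ∀ v, Fin ((∑ i, (F.e i).card) + 1) → Fin (n v) → ℤ,
      Eng F (GS F A) a (∑ i, (F.e i).card) := by
  have hd := dims h2 hv hn
  obtain ⟨A, hA⟩ := hGen V n k F (∑ i, (F.e i).card) hv hF hd (fun v => by have := ha v; omega) hn
  exact ⟨A, hEng V n k F a _ A h2 hv ha rfl hd hA⟩

/-- The open subset. -/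
def OpenW (F : Sys n k) (G : V → Tup n ℚ → Prop) (Ω : Set (MvPolynomial (Σ v, Fin (n v)) ℤ)) :
    Prop :=
  (∀ w ∈ Ω, ∃ ε : V → ℕ, MH w ε) ∧ ∀ P : ∀ v, Projectivization ℚ (Fin (n v) → ℚ),
    Inc F (rp P) → ((∀ v, G v (rp P)) ↔
        ∃ w ∈ Ω, aeval (fun q : (Σ v, Fin (n v)) => rp P q.1 q.2) w ≠ 0)

theorem open_smooth [Fintype V] (hGen : GenP) (hEng : EngS) (hClos : ClosP)
    (h2 : ∀ i, 2 ≤ (F.e i).card)
    (hv : ∀ v, ∃ i, v ∈ F.e i) (hF : Sm F)
    (hn : ∀ v, (Fintype.card V - 1) * (∑ i, (F.e i).card) + 2 * dg F v ≤ n v + k) {a : V → ℕ}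
    (ha : ∀ v, a v + dg F v = n v) :
    ∃ (A : ∀ v, Fin ((∑ i, (F.e i).card) + 1) → Fin (n v) → ℤ)
      (Ω : Set (MvPolynomial (Σ v, Fin (n v)) ℤ)),
      Eng F (GS F A) a (∑ i, (F.e i).card) ∧ OpenW F (GQS F A) Ω := by
  obtain ⟨A, hA⟩ := eng_smooth hGen hEng h2 hv hF hn ha
  obtain ⟨Ω, hΩ1, hΩ2⟩ := hClos V n k F _ A (Nat.succ_le_succ (Nat.zero_le _))
  refine ⟨A, Ω, hA, hΩ1, ?_⟩
  intro P hP
  rw [open_iff (Nat.succ_le_succ (Nat.zero_le _)) hP, hΩ2]
  push Not
  refine exists_congr fun w => and_congr_right fun _ => ?_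
  rw [ea_cT, Ne, Ne, Rat.cast_eq_zero]

/-- **The asymptotic formula for all smooth complete intersections.** -/
theorem main_open [Fintype V] {G : V → Tup n ℤ → Prop} {GQ : V → Tup n ℚ → Prop} {a : V → ℕ}
    {D : ℕ} (hE : Eng F G a D) (hG : ∀ v (x : Tup n ℤ) (c : V → ℚ), (∀ u, c u ≠ 0) →
      (GQ v (fun u => c u • qc (x u)) ↔ G v x)) {Ω : Set (MvPolynomial (Σ v, Fin (n v)) ℤ)}
    (hΩ : OpenW F GQ Ω) (o : V) (S : Finset Nat.Primes) (φ₀ : Tup n ℝ → ℝ) (h₀ : MM.LF F φ₀)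
    (φ : ∀ p : Nat.Primes, Tup n ℚ_[p] → ℝ) (hφ : ∀ p ∈ S, MM.LF F (φ p)) :
      ∃ c : ℝ, 0 < c ∧ Tendsto (fun B : ℝ =>
        (({P : ∀ v, Projectivization ℚ (Fin (n v) → ℚ) |
          Inc F (rp P) ∧ (∃ w ∈ Ω, aeval (fun q : (Σ v, Fin (n v)) => rp P q.1 q.2) w ≠ 0) ∧
            (∏ v, (P v).mulHeight ^ a v) *
              (φ₀ (eT ℝ (rp P)) * ∏ p ∈ S, φ p (eT ℚ_[p] (rp P))) ≤ B} :
          Set (∀ v, Projectivization ℚ (Fin (n v) → ℚ))).ncard : ℝ) /
          (B * Real.log B ^ Fintype.card (Vo o))) atTop (𝓝 c) := by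
  obtain ⟨c, hc, hlim⟩ := MM.main_adel hE Pool.Agent.N717.MM.simP o GQ hG S φ₀ h₀ φ hφ
  refine ⟨c, hc, hlim.congr fun B => ?_⟩
  have hset : {P : ∀ v, Projectivization ℚ (Fin (n v) → ℚ) |
        Inc F (rp P) ∧ (∀ v, GQ v (rp P)) ∧
          (∏ v, (P v).mulHeight ^ a v) *
            (φ₀ (eT ℝ (rp P)) * ∏ p ∈ S, φ p (eT ℚ_[p] (rp P))) ≤ B} =
      {P : ∀ v, Projectivization ℚ (Fin (n v) → ℚ) |
        Inc F (rp P) ∧ (∃ w ∈ Ω, aeval (fun q : (Σ v, Fin (n v)) => rp P q.1 q.2) w ≠ 0) ∧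
          (∏ v, (P v).mulHeight ^ a v) *
            (φ₀ (eT ℝ (rp P)) * ∏ p ∈ S, φ p (eT ℚ_[p] (rp P))) ≤ B} := by
    ext P
    constructor
    · rintro ⟨h1, h3, h4⟩
      exact ⟨h1, (hΩ.2 P h1).1 h3, h4⟩
    · rintro ⟨h1, h3, h4⟩
      exact ⟨h1, (hΩ.2 P h1).2 h3, h4⟩
  rw [hset]

theorem lf_one {K : Type*} [NormedField K] (F : Sys n k) : MM.LF (K := K) F fun _ => 1 :=
  ⟨continuousOn_const, fun _ _ _ => one_pos, fun _ _ _ _ _ => rfl⟩

/-- There are rational points in the open set. -/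
theorem exists_pt [Fintype V] {G : V → Tup n ℤ → Prop} {GQ : V → Tup n ℚ → Prop} {a : V → ℕ}
    {D : ℕ} (hE : Eng F G a D) (hG : ∀ v (x : Tup n ℤ) (c : V → ℚ), (∀ u, c u ≠ 0) →
      (GQ v (fun u => c u • qc (x u)) ↔ G v x)) (o : V) :
    ∃ P : ∀ v, Projectivization ℚ (Fin (n v) → ℚ), Inc F (rp P) ∧ ∀ v, GQ v (rp P) := by
  obtain ⟨c, hc, hlim⟩ := MM.main_adel hE Pool.Agent.N717.MM.simP o GQ hG ∅ (fun _ => 1)
    (lf_one F) (fun _ _ => 1) (fun _ _ => lf_one F)
  by_contra hno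
  push Not at hno
  have h0 : (fun B : ℝ => (({P : ∀ v, Projectivization ℚ (Fin (n v) → ℚ) |
        Inc F (rp P) ∧ (∀ v, GQ v (rp P)) ∧
          (∏ v, (P v).mulHeight ^ a v) * ((1 : ℝ) * ∏ p ∈ (∅ : Finset Nat.Primes), (1 : ℝ)) ≤ B} :
        Set (∀ v, Projectivization ℚ (Fin (n v) → ℚ))).ncard : ℝ) /
        (B * Real.log B ^ Fintype.card (Vo o))) = fun _ => 0 := by
    funext B
    have : {P : ∀ v, Projectivization ℚ (Fin (n v) → ℚ) |
        Inc F (rp P) ∧ (∀ v, GQ v (rp P)) ∧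
          (∏ v, (P v).mulHeight ^ a v) * ((1 : ℝ) * ∏ p ∈ (∅ : Finset Nat.Primes), (1 : ℝ)) ≤ B} =
        ∅ := by
      rw [Set.eq_empty_iff_forall_notMem]
      rintro P ⟨h1, h2, -⟩
      obtain ⟨v, hv⟩ := hno P h1
      exact hv (h2 v)
    rw [this]
    simp
  have h1 := tendsto_nhds_unique hlim (h0 ▸ tendsto_const_nhds)
  exact hc.ne' h1

end Pool.Agent.N852.EL
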