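import Mathlib
import Pool.Agent.N852.EL.Main
import Pool.Agent.N852.EL.WM

/-!
The weak form of the conjecture of Manin: the final statements.
-/

namespace Pool.Agent.N852.EL

set_option linter.unusedSectionVars false

open Matrix Module Filter Topology Function MvPolynomial
open Pool.Agent.N852 (ic qc)
open Pool.Agent.N852.MM

variable {V : Type} [DecidableEq V] [Fintype V] {n : V → ℕ} {k : ℕ} {F : Sys n k}
  {G : V → Tup n ℤ → Prop} {GQ : V → Tup n ℚ → Prop} {a : V → ℕ} {D : ℕ}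

/-- The largest of the numbers `b v`. -/
noncomputable def mxv (b : V → ℝ) : ℝ := ⨆ v, b v

theorem mxv_spec [Nonempty V] (b : V → ℝ) : (∀ v, b v ≤ mxv b) ∧ ∃ v, b v = mxv b := by
  have hbdd : BddAbove (Set.range b) := (Set.finite_range b).bddAbove
  refine ⟨fun v => le_ciSup hbdd v, ?_⟩
  obtain ⟨v, hv⟩ := exists_eq_ciSup_of_finite (f := b)
  exact ⟨v, hv⟩

/-- **The upper bound for all ample line bundles.** -/
theorem weak_all [Nonempty V] (hW : WeakP) (hE : Eng F G a D)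
    (hG : ∀ v (x : Tup n ℤ) (c : V → ℚ), (∀ u, c u ≠ 0) →
      (GQ v (fun u => c u • qc (x u)) ↔ G v x)) (l : V → ℝ) (hl : ∀ v, 0 < l v) :
    ∃ C : ℝ, 0 < C ∧ ∀ T : ℝ, 2 ≤ T →
      ({P : ∀ v, Projectivization ℚ (Fin (n v) → ℚ) | Inc F (rp P) ∧ (∀ v, GQ v (rp P)) ∧
        ∏ v, (P v).mulHeight ^ (l v) ≤ T} : Set _).Finite ∧
      (({P : ∀ v, Projectivization ℚ (Fin (n v) → ℚ) | Inc F (rp P) ∧ (∀ v, GQ v (rp P)) ∧
        ∏ v, (P v).mulHeight ^ (l v) ≤ T} : Set _).ncard : ℝ) ≤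
        C * T ^ (mxv fun v => (a v : ℝ) / l v) *
          Real.log T ^ (Nat.card {v // (a v : ℝ) / l v = mxv fun v => (a v : ℝ) / l v} - 1) := by
  obtain ⟨h1, v₀, h2⟩ := mxv_spec fun v => (a v : ℝ) / l v
  set α := mxv fun v => (a v : ℝ) / l v with hα
  have h3 : ∀ v, ((a v : ℝ) = α * l v ↔ (a v : ℝ) / l v = α) := by
    intro v
    rw [div_eq_iff (hl v).ne']
  have h4 : Nat.card {v // (a v : ℝ) = α * l v} = Nat.card {v // (a v : ℝ) / l v = α} := by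
    apply Nat.card_congr
    exact Equiv.subtypeEquivRight h3
  rw [← h4]
  exact hW V n k F G a D hE GQ hG l α hl (fun v => (div_le_iff₀ (hl v)).1 (h1 v))
    ⟨v₀, (h3 v₀).2 h2⟩

theorem weak_open [Nonempty V] (hW : WeakP) (hE : Eng F G a D)
    (hG : ∀ v (x : Tup n ℤ) (c : V → ℚ), (∀ u, c u ≠ 0) →
      (GQ v (fun u => c u • qc (x u)) ↔ G v x)) {Ω : Set (MvPolynomial (Σ v, Fin (n v)) ℤ)}
    (hΩ : OpenW F GQ Ω) (l : V → ℝ) (hl : ∀ v, 0 < l v) :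
    ∃ C : ℝ, 0 < C ∧ ∀ T : ℝ, 2 ≤ T →
      ({P : ∀ v, Projectivization ℚ (Fin (n v) → ℚ) | Inc F (rp P) ∧
        (∃ w ∈ Ω, aeval (fun q : (Σ v, Fin (n v)) => rp P q.1 q.2) w ≠ 0) ∧
        ∏ v, (P v).mulHeight ^ (l v) ≤ T} : Set _).Finite ∧
      (({P : ∀ v, Projectivization ℚ (Fin (n v) → ℚ) | Inc F (rp P) ∧
        (∃ w ∈ Ω, aeval (fun q : (Σ v, Fin (n v)) => rp P q.1 q.2) w ≠ 0) ∧
        ∏ v, (P v).mulHeight ^ (l v) ≤ T} : Set _).ncard : ℝ) ≤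
        C * T ^ (mxv fun v => (a v : ℝ) / l v) *
          Real.log T ^ (Nat.card {v // (a v : ℝ) / l v = mxv fun v => (a v : ℝ) / l v} - 1) := by
  obtain ⟨C, hC, h⟩ := weak_all hW hE hG l hl
  refine ⟨C, hC, fun T hT => ?_⟩
  have hset : {P : ∀ v, Projectivization ℚ (Fin (n v) → ℚ) | Inc F (rp P) ∧
        (∃ w ∈ Ω, aeval (fun q : (Σ v, Fin (n v)) => rp P q.1 q.2) w ≠ 0) ∧
        ∏ v, (P v).mulHeight ^ (l v) ≤ T} =
      {P : ∀ v, Projectivization ℚ (Fin (n v) → ℚ) | Inc F (rp P) ∧ (∀ v, GQ v (rp P)) ∧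
        ∏ v, (P v).mulHeight ^ (l v) ≤ T} := by
    ext P
    constructor
    · rintro ⟨h1, h3, h4⟩
      exact ⟨h1, (hΩ.2 P h1).2 h3, h4⟩
    · rintro ⟨h1, h3, h4⟩
      exact ⟨h1, (hΩ.2 P h1).1 h3, h4⟩
  rw [hset]
  exact h T hT

end Pool.Agent.N852.EL
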