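import Mathlib
import Pool.Agent.N852.EL.Weak
import Pool.Agent.N852.EL.SepUp
import Pool.Agent.N20.EL.Elim
import Pool.Agent.N216.EL.FewP
import Pool.Agent.N31.EL.SepLow
import Pool.Agent.N478.EL.Jac
import Pool.Agent.N427.EL.Clos
import Pool.Agent.N196.EL.Gen
import Pool.Agent.N482.EL.EngSP
import Pool.Agent.N147.EL.CntBS

/-!
All smooth complete intersections of multilinear hypersurfaces: the parts.
-/

namespace Pool.Agent.N852.EL

theorem closP : ClosP := Pool.Agent.N427.EL.closP Pool.Agent.N20.EL.elimP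

theorem genP : GenP :=
  Pool.Agent.N196.EL.genP Pool.Agent.N20.EL.elimP sepUpP Pool.Agent.N31.EL.sepLowP
    Pool.Agent.N478.EL.jacP

theorem cntBS : CntBS := Pool.Agent.N147.EL.cntBS Pool.Agent.N20.EL.elimP Pool.Agent.N216.EL.fewP

theorem engS : EngS := Pool.Agent.N482.EL.engS cntBS

end Pool.Agent.N852.EL
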