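import Mathlib
import Pool.Agent.N852.EL.Fin
import Pool.Agent.N457.ELW1
import Pool.Agent.N348.EL_W2

/-!
The weak form of the conjecture of Manin: the parts.
-/

namespace Pool.Agent.N852.EL

theorem weakP : WeakP := Pool.Agent.N348.ELW2.weakP Pool.Agent.N457.ELW.sumP

end Pool.Agent.N852.EL
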